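import Pool.Agent.Lib.MP_813774_gt.Main

/-!
A Lorentz metric on the unordered configuration space of the disk whose future directed time-like
loops represent exactly the positive braids, stated with the fundamental group of the quotient.
-/

set_option autoImplicit false

namespace Pool.Agent.Results.MP_813774_gt.BraidLorentz

open Set unitInterval
open Pool.Agent.Lib.MP_813774_gt

/-- Ordered configurations of `n` distinct points of the open unit disk. -/
abbrev OConf (n : ℕ) : Type := {f : Fin n → ℂ // Function.Injective f ∧ ∀ m, ‖f m‖ < 1}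

/-- Two ordered configurations are identified when they consist of the same points. -/
def sameSet (n : ℕ) : Setoid (OConf n) := Setoid.ker fun x => Set.range x.1

/-- The unordered configuration space, with the quotient topology. -/
abbrev UConf (n : ℕ) : Type := Quotient (sameSet n)

/-- The configuration at time `s` of the counterclockwise half turn of the points number `i` and
`i + 1` of the base configuration `(2 m + 1) / n - 1`, the other points staying fixed. -/
noncomputable def turn (n i : ℕ) (s : ℝ) : Fin n → ℂ := fun m =>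
  if (m : ℕ) = i then
    (((2 * (i : ℝ) + 2) / (n : ℝ) - 1 : ℝ) : ℂ)
      - ((1 / (n : ℝ) : ℝ) : ℂ) * Complex.exp ((Real.pi : ℂ) * (s : ℂ) * Complex.I)
  else if (m : ℕ) = i + 1 then
    (((2 * (i : ℝ) + 2) / (n : ℝ) - 1 : ℝ) : ℂ)
      + ((1 / (n : ℝ) : ℝ) : ℂ) * Complex.exp ((Real.pi : ℂ) * (s : ℂ) * Complex.I)
  else (((2 * ((m : ℕ) : ℝ) + 1) / (n : ℝ) - 1 : ℝ) : ℂ)

theorem base_mem (n : ℕ) :
    Function.Injective (fun m : Fin n => (((2 * ((m : ℕ) : ℝ) + 1) / (n : ℝ) - 1 : ℝ) : ℂ)) ∧
      ∀ m : Fin n, ‖(((2 * ((m : ℕ) : ℝ) + 1) / (n : ℝ) - 1 : ℝ) : ℂ)‖ < 1 :=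
  Cham_sub n 1 _ (basePt_mem n 1)

/-- The base point: the `n` points `(2 m + 1) / n - 1` of the real diameter. -/
noncomputable def base (n : ℕ) : UConf n :=
  Quotient.mk (sameSet n)
    ⟨fun m : Fin n => (((2 * ((m : ℕ) : ℝ) + 1) / (n : ℝ) - 1 : ℝ) : ℂ), base_mem n⟩

theorem halfTurn_mem {n : ℕ} (ρ : Equiv.Perm (Fin n)) {i : ℕ} (hi : i + 1 < n) (s : I) :
    Function.Injective (halfTurn n ρ i s) ∧ ∀ m, ‖halfTurn n ρ i s m‖ < 1 := by
  have h := halfTurn_mem_Wset n ρ (ρ.symm ⟨i, by omega⟩) (ρ.symm ⟨i + 1, hi⟩) (by simp) s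
    s.2.1 s.2.2
  rw [Equiv.apply_symm_apply] at h
  exact Wset_sub n ρ _ _ _ h

theorem turn_mem {n i : ℕ} (hi : i + 1 < n) (s : I) :
    Function.Injective (turn n i s) ∧ ∀ m, ‖turn n i s m‖ < 1 :=
  halfTurn_mem 1 hi s

theorem mk_eq_iff {n : ℕ} (x y : OConf n) :
    Quotient.mk (sameSet n) x = Quotient.mk (sameSet n) y ↔ Set.range x.1 = Set.range y.1 :=
  Quotient.eq

theorem range_basePt (n : ℕ) (ρ : Equiv.Perm (Fin n)) :
    Set.range (basePt n ρ) = Set.range (basePt n 1) :=
  ρ.surjective.range_comp (basePt n 1)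

theorem range_halfTurn (n : ℕ) (ρ : Equiv.Perm (Fin n)) (i : ℕ) (s : ℝ) :
    Set.range (halfTurn n ρ i s) = Set.range (turn n i s) :=
  ρ.surjective.range_comp (turn n i s)

theorem mk_eq_base {n : ℕ} {x : OConf n} {ρ : Equiv.Perm (Fin n)} (h : x.1 = basePt n ρ) :
    Quotient.mk (sameSet n) x = base n := by
  unfold base
  rw [mk_eq_iff, h]
  exact range_basePt n ρ

theorem halfTurn_one' {n : ℕ} (ρ : Equiv.Perm (Fin n)) {i : ℕ} (hi : i + 1 < n) :
    halfTurn n ρ i 1 =
      basePt n ((Equiv.swap (ρ.symm ⟨i, by omega⟩) (ρ.symm ⟨i + 1, hi⟩)).trans ρ) := by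
  have h := halfTurn_one n ρ (ρ.symm ⟨i, by omega⟩) (ρ.symm ⟨i + 1, hi⟩) (by simp)
  rw [Equiv.apply_symm_apply] at h
  exact h

theorem turn_continuous {n i : ℕ} (hi : i + 1 < n) :
    Continuous fun s : I => Quotient.mk (sameSet n) ⟨turn n i s, turn_mem hi s⟩ :=
  continuous_quotient_mk'.comp
    (((continuous_halfTurn n 1 i).comp continuous_subtype_val).subtype_mk _)

theorem turn_source {n i : ℕ} (hi : i + 1 < n) :
    Quotient.mk (sameSet n) ⟨turn n i (0 : I), turn_mem hi 0⟩ = base n :=
  mk_eq_base (halfTurn_zero n 1 i)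

theorem turn_target {n i : ℕ} (hi : i + 1 < n) :
    Quotient.mk (sameSet n) ⟨turn n i (1 : I), turn_mem hi 1⟩ = base n :=
  mk_eq_base (halfTurn_one' 1 hi)

/-- The half turn as a loop at the base point of the unordered configuration space. -/
noncomputable def sigmaLoop (n i : ℕ) (hi : i + 1 < n) : Path (base n) (base n) where
  toFun s := Quotient.mk (sameSet n) ⟨turn n i s, turn_mem hi s⟩
  continuous_toFun := turn_continuous hi
  source' := turn_source hi
  target' := turn_target hi

/-- A braid is positive if it is a product of standard generators, without inverses. -/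
def Positive (n : ℕ) (β : FundamentalGroup (UConf n) (base n)) : Prop :=
  β ∈ Submonoid.closure {α : FundamentalGroup (UConf n) (base n) | ∃ (i : ℕ) (hi : i + 1 < n),
    α = FundamentalGroup.fromPath (Path.Homotopic.Quotient.mk (sigmaLoop n i hi))}

/-- Real bilinear forms on the tangent space of the ordered configuration space. -/
abbrev Form (n : ℕ) : Type := (Fin n → ℂ) →L[ℝ] (Fin n → ℂ) →L[ℝ] ℝ

/-- The value of a bilinear form on two vectors. -/
noncomputable def val {n : ℕ} (B : Form n) (v w : Fin n → ℂ) : ℝ := B v w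

/-- The field of forms `g` is smooth on the ordered configuration space. -/
def SmoothForm (n : ℕ) (g : (Fin n → ℂ) → Form n) : Prop :=
  ContDiffOn ℝ ((⊤ : ℕ∞) : WithTop ℕ∞) g
    {f : Fin n → ℂ | Function.Injective f ∧ ∀ m, ‖f m‖ < 1}

/-- The vector field `T` is smooth on the ordered configuration space. -/
def SmoothField (n : ℕ) (T : (Fin n → ℂ) → (Fin n → ℂ)) : Prop :=
  ContDiffOn ℝ ((⊤ : ℕ∞) : WithTop ℕ∞) T
    {f : Fin n → ℂ | Function.Injective f ∧ ∀ m, ‖f m‖ < 1}

/-- A time oriented Lorentz metric on the unordered configuration space, given by its pullback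
`g` to the ordered one together with a time-like vector field `T`, both smooth and invariant under
relabelling of the points. -/
def IsLorentz (n : ℕ) (g : (Fin n → ℂ) → Form n) (T : (Fin n → ℂ) → (Fin n → ℂ)) : Prop :=
  SmoothForm n g ∧ SmoothField n T ∧
    ∀ x : OConf n,
      (∀ v w : Fin n → ℂ, val (g x.1) v w = val (g x.1) w v) ∧
      val (g x.1) (T x.1) (T x.1) < 0 ∧
      (∀ v : Fin n → ℂ, v ≠ 0 → val (g x.1) (T x.1) v = 0 → 0 < val (g x.1) v v) ∧
      ∀ ρ : Equiv.Perm (Fin n),
        (∀ v w : Fin n → ℂ, val (g (x.1 ∘ ρ)) (v ∘ ρ) (w ∘ ρ) = val (g x.1) v w) ∧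
        T (x.1 ∘ ρ) = T x.1 ∘ ρ

/-- The curve `γ` is smooth on the interval from `a` to `b` and its tangent vectors there
(one-sided at the ends) are time-like and future directed. -/
def TimelikeOn (n : ℕ) (g : (Fin n → ℂ) → Form n) (T : (Fin n → ℂ) → (Fin n → ℂ))
    (γ : ℝ → Fin n → ℂ) (a b : ℝ) : Prop :=
  ContDiffOn ℝ ((⊤ : ℕ∞) : WithTop ℕ∞) γ (Set.Icc a b) ∧
    ∀ t ∈ Set.Icc a b,
      val (g (γ t)) (derivWithin γ (Set.Icc a b) t) (derivWithin γ (Set.Icc a b) t) < 0 ∧
      val (g (γ t)) (derivWithin γ (Set.Icc a b) t) (T (γ t)) < 0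

/-- The braid `β` is the class of a loop at the base point which has a continuous, piecewise
smooth lift `γ` all of whose one-sided tangent vectors are time-like and future directed. -/
def TimelikeRep (n : ℕ) (g : (Fin n → ℂ) → Form n) (T : (Fin n → ℂ) → (Fin n → ℂ))
    (β : FundamentalGroup (UConf n) (base n)) : Prop :=
  ∃ (l : Path (base n) (base n)) (γ : ℝ → Fin n → ℂ) (k : ℕ) (τ : ℕ → ℝ),
    β = FundamentalGroup.fromPath (Path.Homotopic.Quotient.mk l) ∧
    (∀ t : I, ∃ x : OConf n, x.1 = γ t ∧ l t = Quotient.mk (sameSet n) x) ∧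
    ContinuousOn γ (Set.Icc 0 1) ∧ τ 0 = 0 ∧ τ k = 1 ∧
    ∀ j : ℕ, j < k → τ j < τ (j + 1) ∧ TimelikeOn n g T γ (τ j) (τ (j + 1))

theorem homotopic_proj {X Y : Type} [TopologicalSpace X] [TopologicalSpace Y] (f : X → Y)
    (hf : Continuous f) {a b : X} {c c' : Path a b} (h : c.Homotopic c') {x y : Y}
    (l l' : Path x y) (hl : ∀ t, l t = f (c t)) (hl' : ∀ t, l' t = f (c' t)) :
    l.Homotopic l' := by
  have hx : x = f a := by rw [← l.source, hl, c.source]
  have hy : y = f b := by rw [← l.target, hl, c.target]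
  subst hx hy
  have e1 : l = c.map hf := by
    ext1
    funext t
    exact hl t
  have e2 : l' = c'.map hf := by
    ext1
    funext t
    exact hl' t
  rw [e1, e2]
  exact h.map ⟨f, hf⟩

/-- The projection of a path between two relabellings of the base configuration. -/
noncomputable def projLoop {n : ℕ} {P q : Conf n} (hP : Quotient.mk (sameSet n) P = base n)
    (hq : Quotient.mk (sameSet n) q = base n) (c : Path P q) : Path (base n) (base n) where
  toFun t := Quotient.mk (sameSet n) (c t)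
  continuous_toFun := continuous_quotient_mk'.comp c.continuous
  source' := by rw [c.source, hP]
  target' := by rw [c.target, hq]

theorem exists_lift {n : ℕ} {P : Conf n} (hP : P.1 = basePt n 1)
    {β : FundamentalGroup (UConf n) (base n)} (hβ : Positive n β) :
    ∃ (ρ : Equiv.Perm (Fin n)) (q : Conf n) (c : Path P q) (l : Path (base n) (base n)),
      q.1 = basePt n ρ ∧ IsPos P q c ∧ (∀ t, l t = Quotient.mk (sameSet n) (c t)) ∧
      β = FundamentalGroup.fromPath (Path.Homotopic.Quotient.mk l) := by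
  unfold Positive at hβ
  induction hβ using Submonoid.closure_induction_left with
  | one =>
    exact ⟨1, P, Path.refl P, Path.refl _, hP, IsPos.refl P, fun t => (mk_eq_base hP).symm, rfl⟩
  | mul_left x hx y hy ih =>
    obtain ⟨i, hi, rfl⟩ := hx
    obtain ⟨ρ, q, c, l, hq, hpos, hl, rfl⟩ := ih
    let ρ₁ := (Equiv.swap (ρ.symm ⟨i, by omega⟩) (ρ.symm ⟨i + 1, hi⟩)).trans ρ
    let q₁ : Conf n := ⟨basePt n ρ₁, Cham_sub n ρ₁ _ (basePt_mem n ρ₁)⟩
    let H : Path q q₁ :=
      { toFun := fun s => ⟨halfTurn n ρ i s, halfTurn_mem ρ hi s⟩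
        continuous_toFun :=
          ((continuous_halfTurn n ρ i).comp continuous_subtype_val).subtype_mk _
        source' := Subtype.ext ((halfTurn_zero n ρ i).trans hq.symm)
        target' := Subtype.ext (halfTurn_one' ρ hi) }
    refine ⟨ρ₁, q₁, c.trans H, l.trans (sigmaLoop n i hi), rfl,
      hpos.step H i hi ρ (fun s => rfl), fun t => ?_, rfl⟩
    rw [Path.trans_apply, Path.trans_apply]
    split_ifs with ht
    · exact hl _
    · exact (mk_eq_iff _ _).mpr (range_halfTurn n ρ i _).symm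

theorem positive_of_word {n : ℕ} (F : ℝ → Conf n) (hF : Continuous F) (k : ℕ)
    (hj : ∀ j : ℕ, j < k → ∃ i : ℕ, i + 1 < n ∧ ∃ ρ : Equiv.Perm (Fin n),
      ∀ s : ℝ, 0 ≤ s → s ≤ 1 → (F ((j : ℝ) + s)).1 = halfTurn n ρ i s)
    (l : Path (base n) (base n)) (hl : ∀ t, l t = Quotient.mk (sameSet n) (F ((k : ℝ) * t))) :
    Positive n (FundamentalGroup.fromPath (Path.Homotopic.Quotient.mk l)) := by
  induction k generalizing l with
  | zero =>
    have e : l = Path.refl _ := by
      ext1
      funext t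
      have h0 := hl 0
      rw [l.source] at h0
      rw [hl t, Path.refl_apply, h0]
      simp
    rw [e]
    exact Submonoid.one_mem _
  | succ k ih =>
    obtain ⟨i, hi, ρ, hρ⟩ := hj k (Nat.lt_succ_self k)
    have hG : Continuous fun u : ℝ => Quotient.mk (sameSet n) (F u) :=
      continuous_quotient_mk'.comp hF
    have h0 : Quotient.mk (sameSet n) (F 0) = base n := by
      have h0 := hl 0
      rw [l.source] at h0
      rw [h0]
      simp
    have hk : Quotient.mk (sameSet n) (F k) = base n := by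
      have h1 := hρ 0 le_rfl zero_le_one
      rw [add_zero, halfTurn_zero] at h1
      exact mk_eq_base h1
    let l₁ : Path (base n) (base n) :=
      { toFun := fun t => Quotient.mk (sameSet n) (F ((k : ℝ) * t))
        continuous_toFun := hG.comp (continuous_const.mul continuous_subtype_val)
        source' := by simpa using h0
        target' := by simpa using hk }
    have h1 := ih (fun j hjk => hj j (Nat.lt_succ_of_lt hjk)) l₁ (fun t => rfl)
    have hh : l.Homotopic (l₁.trans (sigmaLoop n i hi)) := by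
      refine homotopic_of_factor (fun u : ℝ => Quotient.mk (sameSet n) (F u)) hG l _
        (fun t => ((k + 1 : ℕ) : ℝ) * t)
        (fun t => if (t : ℝ) ≤ 1 / 2 then (k : ℝ) * (2 * t) else (k : ℝ) + (2 * t - 1))
        (by fun_prop) ?_ (by simp) (by norm_num) hl ?_
      · refine Continuous.if_le (by fun_prop) (by fun_prop) (by fun_prop) continuous_const ?_
        intro t ht
        rw [ht]
        ring
      · intro t
        rw [Path.trans_apply]
        split_ifs with ht
        · rfl
        · refine (mk_eq_iff _ _).mpr ?_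
          rw [hρ (2 * t - 1) (by linarith [not_le.1 ht]) (by linarith [t.2.2]), range_halfTurn]
    rw [Path.Homotopic.Quotient.eq.mpr hh]
    have hs : Positive n
        (FundamentalGroup.fromPath (Path.Homotopic.Quotient.mk (sigmaLoop n i hi))) :=
      Submonoid.subset_closure ⟨i, hi, rfl⟩
    exact Submonoid.mul_mem _ hs h1

theorem exists_perm {n : ℕ} {f g : Fin n → ℂ} (hf : Function.Injective f)
    (hg : Function.Injective g) (h : Set.range f = Set.range g) :
    ∃ ρ : Equiv.Perm (Fin n), ∀ m, g m = f (ρ m) := by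
  refine ⟨(Equiv.ofInjective g hg).trans
    ((Equiv.setCongr h.symm).trans (Equiv.ofInjective f hf).symm), fun m => ?_⟩
  simp only [Equiv.trans_apply]
  rw [Equiv.apply_ofInjective_symm hf]
  rfl

theorem tau_bounds {k : ℕ} {τ : ℕ → ℝ} (h0 : τ 0 = 0) (h1 : τ k = 1)
    (h : ∀ j, j < k → τ j < τ (j + 1)) (j : ℕ) (hj : j ≤ k) : 0 ≤ τ j ∧ τ j ≤ 1 := by
  have mono : ∀ a b : ℕ, a + b ≤ k → τ a ≤ τ (a + b) := by
    intro a b
    induction b with
    | zero => exact fun _ => le_rfl
    | succ b ih =>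
      intro hb
      exact (ih (by omega)).trans (h (a + b) (by omega)).le
  constructor
  · have h2 := mono 0 j (by omega)
    rwa [zero_add, h0] at h2
  · have h2 := mono j (k - j) (by omega)
    rwa [Nat.add_sub_cancel' hj, h1] at h2

theorem positive_of_timelike {n : ℕ} (hn : 2 ≤ n) {β : FundamentalGroup (UConf n) (base n)}
    (h : TimelikeRep n (gL n) Rot β) : Positive n β := by
  obtain ⟨l, γ, k, τ, rfl, hcov, hcont, h0, h1, hp⟩ := h
  choose x hx hlx using hcov
  let P : Conf n := ⟨basePt n 1, Cham_sub n 1 _ (basePt_mem n 1)⟩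
  have hr0 : Set.range (x 0).1 = Set.range P.1 := by
    rw [← mk_eq_iff, ← hlx, l.source]
    rfl
  obtain ⟨ρ, hρ⟩ := exists_perm (x 0).2.1 P.2.1 hr0
  have hmem : ∀ t : I, Function.Injective (fun m => γ t (ρ m)) ∧
      ∀ m, ‖(fun m => γ t (ρ m)) m‖ < 1 := by
    intro t
    rw [← hx t]
    exact ⟨(x t).2.1.comp ρ.injective, fun m => (x t).2.2 _⟩
  have hrange : ∀ t : I, Set.range (fun m => γ t (ρ m)) = Set.range (x t).1 := by
    intro t
    rw [hx t]
    exact ρ.surjective.range_comp (γ t)
  let q : Conf n := ⟨fun m => γ (1 : I) (ρ m), hmem 1⟩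
  have hr1 : Set.range P.1 = Set.range q.1 := by
    rw [hrange 1, ← mk_eq_iff, ← hlx, l.target]
    rfl
  obtain ⟨π₀, hπ₀⟩ := exists_perm P.2.1 q.2.1 hr1
  have hq : q.1 = basePt n π₀ := funext fun m => hπ₀ m
  have hγc : Continuous fun t : I => γ t := continuousOn_iff_continuous_domRestrict.mp hcont
  let d : Path P q :=
    { toFun := fun t => ⟨fun m => γ t (ρ m), hmem t⟩
      continuous_toFun :=
        (continuous_pi fun m => (continuous_apply (ρ m)).comp hγc).subtype_mk _
      source' := Subtype.ext (funext fun m => by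
        rw [hρ m, hx 0])
      target' := rfl }
  have hpos : IsPos P q d := by
    refine isPos_of_timelike hn rfl π₀ hq d k τ h0 h1 fun j hj => ?_
    obtain ⟨hlt, hs, ht⟩ := hp j hj
    have b1 := tau_bounds h0 h1 (fun j hj => (hp j hj).1) j hj.le
    have b2 := tau_bounds h0 h1 (fun j hj => (hp j hj).1) (j + 1) hj
    have heq : EqOn (fun t : ℝ => (d.extend t).1) (fun t : ℝ => fun m => γ t (ρ m))
        (Icc (τ j) (τ (j + 1))) := by
      intro t ht
      have ht' : t ∈ Icc (0 : ℝ) 1 := ⟨b1.1.trans ht.1, ht.2.trans b2.2⟩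
      simp only
      rw [Path.extend_apply _ ht']
      rfl
    have hs' : ContDiffOn ℝ ((⊤ : ℕ∞) : WithTop ℕ∞) (fun t : ℝ => fun m => γ t (ρ m))
        (Icc (τ j) (τ (j + 1))) :=
      contDiffOn_pi.mpr fun m => contDiffOn_pi.mp hs (ρ m)
    refine ⟨hlt, hs'.congr heq, fun t htm => ?_⟩
    have hd : HasDerivWithinAt γ (derivWithin γ (Icc (τ j) (τ (j + 1))) t)
        (Icc (τ j) (τ (j + 1))) t :=
      ((hs.differentiableOn (by simp)) t htm).hasDerivWithinAt
    have hd' : HasDerivWithinAt (fun t : ℝ => fun m => γ t (ρ m))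
        (fun m => derivWithin γ (Icc (τ j) (τ (j + 1))) t (ρ m)) (Icc (τ j) (τ (j + 1))) t :=
      hasDerivWithinAt_pi.mpr fun m => hasDerivWithinAt_pi.mp hd (ρ m)
    have hder : derivWithin (fun t : ℝ => (d.extend t).1) (Icc (τ j) (τ (j + 1))) t =
        fun m => derivWithin γ (Icc (τ j) (τ (j + 1))) t (ρ m) := by
      rw [derivWithin_congr heq (heq htm)]
      exact hd'.derivWithin (uniqueDiffOn_Icc hlt t htm)
    have hval : (d.extend t).1 = fun m => γ t (ρ m) := heq htm
    obtain ⟨e1, e2⟩ := ht t htm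
    rw [hder, hval]
    rw [val, gL_apply] at e1 e2
    rw [gL_apply, gL_apply]
    exact ⟨(Gf_perm ρ _ _ _).trans_lt e1, (Gf_perm ρ (γ t) _ (Rot (γ t))).trans_lt e2⟩
  obtain ⟨k', F, hF, hj, Γ, hΓ, hh⟩ := hpos
  have hPb : Quotient.mk (sameSet n) P = base n := mk_eq_base rfl
  have hqb : Quotient.mk (sameSet n) q = base n := mk_eq_base hq
  have hhom : l.Homotopic (projLoop hPb hqb Γ) := by
    refine homotopic_proj (Quotient.mk (sameSet n)) continuous_quotient_mk' hh.symm l _
      (fun t => ?_) (fun t => rfl)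
    rw [hlx t]
    exact (mk_eq_iff _ _).mpr (hrange t).symm
  rw [Path.Homotopic.Quotient.eq.mpr hhom]
  refine positive_of_word F hF k' hj _ fun t => ?_
  rw [← hΓ t]
  rfl

theorem timelike_of_positive {n : ℕ} (hn : 2 ≤ n) {β : FundamentalGroup (UConf n) (base n)}
    (hβ : β ≠ 1) (h : Positive n β) : TimelikeRep n (gL n) Rot β := by
  let P : Conf n := ⟨basePt n 1, Cham_sub n 1 _ (basePt_mem n 1)⟩
  obtain ⟨ρ, q, c, l, hq, ⟨k, F, hF, hj, Γ, hΓ, hh⟩, hl, rfl⟩ := exists_lift (P := P) rfl h
  have hPb : Quotient.mk (sameSet n) P = base n := mk_eq_base rfl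
  have hqb : Quotient.mk (sameSet n) q = base n := mk_eq_base hq
  have hhom : l.Homotopic (projLoop hPb hqb Γ) :=
    homotopic_proj (Quotient.mk (sameSet n)) continuous_quotient_mk' hh.symm l _ hl (fun t => rfl)
  rcases Nat.eq_zero_or_pos k with rfl | hk
  · exfalso
    apply hβ
    have e : projLoop hPb hqb Γ = Path.refl _ := by
      ext1
      funext t
      have h0 : Γ t = P := by
        rw [hΓ, ← Γ.source, hΓ]
        simp
      change Quotient.mk (sameSet n) (Γ t) = base n
      rw [h0, hPb]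
    rw [Path.Homotopic.Quotient.eq.mpr hhom, e]
    rfl
  · obtain ⟨k', τ, h0, h1, hp⟩ := timelike_of_word hn Γ k hk (fun j hjk => by
      obtain ⟨i, hi, ρ', hρ'⟩ := hj j hjk
      refine ⟨i, hi, ρ', fun t s hs0 hs1 ht m => ?_⟩
      have hk0 : (k : ℝ) ≠ 0 := by exact_mod_cast hk.ne'
      have e : (k : ℝ) * t = j + s := by
        rw [ht]
        field_simp
      rw [hΓ, e, hρ' s hs0 hs1])
    refine ⟨projLoop hPb hqb Γ, fun t => (Γ.extend t).1, k', τ,
      Path.Homotopic.Quotient.eq.mpr hhom, fun t => ⟨Γ t, ?_, rfl⟩, ?_, h0, h1, hp⟩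
    · exact congrArg Subtype.val (Γ.extend_extends' t).symm
    · exact (continuous_subtype_val.comp Γ.continuous_extend).continuousOn

/-- For every `n ≥ 2` there is a time oriented Lorentz metric on the unordered configuration space
such that a nontrivial braid is positive exactly when a future directed time-like loop at the base
point represents it. -/
theorem result : ∀ n : ℕ, 2 ≤ n →
    ∃ (g : (Fin n → ℂ) → Form n) (T : (Fin n → ℂ) → (Fin n → ℂ)), IsLorentz n g T ∧
      ∀ β : FundamentalGroup (UConf n) (base n), β ≠ 1 →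
        (Positive n β ↔ TimelikeRep n g T β) := by
  intro n hn
  refine ⟨gL n, Rot, ⟨contDiffOn_gL, ?_, fun x => ⟨fun v w => Gf_symm x.1 v w, ?_,
    fun v hv h => Gf_pos hn x.1 x.2.1 v hv h,
    fun ρ => ⟨fun v w => Gf_perm ρ x.1 v w, rfl⟩⟩⟩,
    fun β hβ => ⟨timelike_of_positive hn hβ, positive_of_timelike hn⟩⟩
  · refine ContDiff.contDiffOn (contDiff_pi.mpr fun m => ?_)
    exact contDiff_const.mul (contDiff_apply ℝ ℂ m)
  · rw [val, gL_apply, Gf_Rot x.1 x.2.1, Om_Rot]
    have h := Wt_pos hn x.1 x.2.1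
    exact neg_neg_of_pos (mul_pos h h)

end Pool.Agent.Results.MP_813774_gt.BraidLorentz
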